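import Mathlib

/-!
# Triangle-free graphs with few repeated degrees (MP_e6c71b_co), even `k = 2p`

Construction.  `p` half graphs `A_i`, `B_i` on `(L+1) w` positions `(b, c)` (`b` coarse, `c` label),
joined by sparse label edges inside blocks; the unblocked top vertices of all `A_i` and `B_j`
are joined completely.
-/

namespace Run7.h77.RD

/-- vertices: copy, side (`false` = A, `true` = B), coarse position, label -/
abbrev V (p L w : ℕ) : Type := Fin p × Bool × Fin (L + 1) × Fin w

/-- half graph order: the `A`-position `x` sees the `B`-position `y` -/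
def Dn {L w : ℕ} (x y : Fin (L + 1) × Fin w) : Prop :=
  y.1 < x.1 ∨ (y.1 = x.1 ∧ y.2 ≤ x.2)

/-- block number of a coarse position: `b + 1` on side `A`, `b` on side `B` -/
def bid {L : ℕ} (s : Bool) (b : Fin (L + 1)) : ℕ := if s = true then (b : ℕ) else (b : ℕ) + 1

/-- dense edges from side `A` to side `B` -/
def E1 {p L w : ℕ} (u v : V p L w) : Prop :=
  u.2.1 = false ∧ v.2.1 = true ∧
    ((u.1 = v.1 ∧ Dn u.2.2 v.2.2) ∨
      (u.1 ≠ v.1 ∧ u.2.2.1 = Fin.last L ∧ v.2.2.1 = 0))

/-- sparse edges between different copies inside a block -/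
def E2 {p L w : ℕ} (H : SimpleGraph (Fin w)) (u v : V p L w) : Prop :=
  u.1 ≠ v.1 ∧ bid u.2.1 u.2.2.1 = bid v.2.1 v.2.2.1 ∧ 1 ≤ bid u.2.1 u.2.2.1 ∧
    bid u.2.1 u.2.2.1 ≤ L ∧ H.Adj u.2.2.2 v.2.2.2

/-- the graph -/
def G (p L w : ℕ) (H : SimpleGraph (Fin w)) : SimpleGraph (V p L w) where
  Adj u v := E1 u v ∨ E1 v u ∨ E2 H u v
  symm := ⟨by
    intro u v h
    rcases h with h | h | h
    · exact Or.inr (Or.inl h)
    · exact Or.inl h
    · refine Or.inr (Or.inr ⟨fun e => h.1 e.symm, h.2.1.symm, ?_, ?_, h.2.2.2.2.symm⟩)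
      · rw [← h.2.1]; exact h.2.2.1
      · rw [← h.2.1]; exact h.2.2.2.1⟩
  loopless := ⟨by
    intro u h
    rcases h with h | h | h
    · have h1 := h.1; have h2 := h.2.1; rw [h1] at h2; cases h2
    · have h1 := h.1; have h2 := h.2.1; rw [h1] at h2; cases h2
    · exact h.1 rfl⟩

/-- CUBE (40 lines). two sets of `0/1` vectors at Hamming distance at least `r`.
Proof. Induction on `s` (for all `r`).  Split `X`, `Z` by the first coordinate (sizes `x0, x1, z0, z1`).
With `c = 9^s / (2^s 2^r)` (real) the induction hypothesis gives `x0 z0, x1 z1 ≤ c`, and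
`x0 z1, x1 z0 ≤ 2 c` (distance of the tails at least `r - 1`; for `r = 0` even `≤ c`).
Put `a = x0 z1`, `b = x1 z0`; `a b = (x0 z0)(x1 z1) ≤ c^2` and `(2c - a)(2c - b) ≥ 0` give
`a + b ≤ 5c/2`, so `(x0 + x1)(z0 + z1) ≤ 9c/2`. -/
def S_CUBE : Prop :=
  ∀ (s r : ℕ) (X Z : Finset (Fin s → Bool)),
    (∀ x ∈ X, ∀ z ∈ Z, r ≤ hammingDist x z) → X.card * Z.card * 2 ^ r * 2 ^ s ≤ 9 ^ s

/-- LG (90 lines; hypothesis `S_CUBE`). label graphs: triangle-free, regular of degree at most half,
any two `ε`-dense sets are joined.  Proof: the graph `3 * hammingDist x y > 2 * s` on `Fin s → Bool`,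
`s = 3 r`, `(729/1024)^r < ε^2`, moved to `Fin (2 ^ s)` along an equivalence.
Triangle-free: `d(x,y) + d(y,z) + d(x,z) ≤ 2 s` (every coordinate contributes 0 or 2).
Regular: translation by a vector (coordinatewise xor).  `2 D ≤ w`: the complement map sends the
neighbours of `0` (weight `> 2s/3`) to non-neighbours.  Two sets `X, Y` without edges: with `Z` the
set of complements of the elements of `Y`, `d(x, z) = s - d(x, y) ≥ r`, so by `S_CUBE`
`|X| |Y| 16^r ≤ 729^r` while `|X| |Y| ≥ ε^2 64^r`. -/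
def S_LG : Prop :=
  ∀ ε : ℝ, 0 < ε → ∃ (w D : ℕ) (H : SimpleGraph (Fin w)), 0 < w ∧ H.CliqueFree 3 ∧
    (∀ c, (H.neighborSet c).ncard = D) ∧ 2 * D ≤ w ∧
    ∀ X Y : Finset (Fin w), ε * w ≤ (X.card : ℝ) → ε * w ≤ (Y.card : ℝ) →
      ∃ x ∈ X, ∃ y ∈ Y, H.Adj x y

/-- TRI (60 lines). the graph is triangle-free.
Proof. `E1` edges join side A to side B. Three `E1` edges: impossible by sides. Three `E2` edges: a
triangle of labels in `H`. Two `E1` edges `u-v`, `t-v` and `u-t` in `E2`: `u, t` are on the same side, in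
blocks (`1 ≤ bid ≤ L`), so no top edge is involved (`bid (false, last) = L+1`, `bid (true, 0) = 0`) and
`u.1 = v.1 = t.1`, contradicting `u.1 ≠ t.1`. One `E1` edge `u-v` (`u` on A), `u-t`, `v-t` in `E2`: all three
have the same `bid`, not a top edge, so `Dn u v`: `v.b ≤ u.b`, but `v.b = bid v = bid u = u.b + 1`. -/
def S_TRI : Prop :=
  ∀ (p L w : ℕ) (H : SimpleGraph (Fin w)), 1 ≤ L → H.CliqueFree 3 → (G p L w H).CliqueFree 3

/-- DEGA (70 lines). the degrees on side A: `b w + c + 1` dense neighbours in the same copy (positions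
`≤ (b, c)` of side B); if `b < L` then `D` sparse neighbours `(j, false, b, c')` and `D` sparse neighbours
`(j, true, b + 1, c')` for every `j ≠ i`; if `b = L` then all `(j, true, 0, c')`, `j ≠ i`. -/
def S_DEGA : Prop :=
  ∀ (p L w D : ℕ) (H : SimpleGraph (Fin w)), 1 ≤ L → (∀ c, (H.neighborSet c).ncard = D) →
    ∀ (i : Fin p) (b : Fin (L + 1)) (c : Fin w),
      ((G p L w H).neighborSet (i, false, b, c)).ncard =
        (b : ℕ) * w + c + 1 + (if (b : ℕ) < L then 2 * (p - 1) * D else (p - 1) * w)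

/-- DEGB (70 lines). the degrees on side B: `(L+1) w - (b w + c)` dense neighbours in the same copy
(positions `≥ (b, c)` of side A); if `0 < b` then `D` sparse neighbours `(j, true, b, c')` and `D` sparse
neighbours `(j, false, b - 1, c')` for every `j ≠ i`; if `b = 0` then all `(j, false, L, c')`, `j ≠ i`. -/
def S_DEGB : Prop :=
  ∀ (p L w D : ℕ) (H : SimpleGraph (Fin w)), 1 ≤ L → (∀ c, (H.neighborSet c).ncard = D) →
    ∀ (i : Fin p) (b : Fin (L + 1)) (c : Fin w),
      ((G p L w H).neighborSet (i, true, b, c)).ncard =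
        ((L + 1) * w - ((b : ℕ) * w + c)) + (if 0 < (b : ℕ) then 2 * (p - 1) * D else (p - 1) * w)

/-- MULT (50 lines; hypotheses `S_DEGA`, `S_DEGB`). every degree is at least one and is taken at most
`2 p` times: for a fixed copy and side the degree is a strictly monotone function of the position
`b w + c` (use `2 (p-1) D ≤ (p-1) w`), so `v ↦ (v.1, v.2.1)` is injective on the vertices of degree `d`. -/
def S_MULT : Prop :=
  ∀ (p L w D : ℕ) (H : SimpleGraph (Fin w)), 1 ≤ L → (∀ c, (H.neighborSet c).ncard = D) →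
    2 * D ≤ w →
    (∀ v : V p L w, 1 ≤ ((G p L w H).neighborSet v).ncard) ∧
    ∀ d : ℕ, {v : V p L w | ((G p L w H).neighborSet v).ncard = d}.ncard ≤ 2 * p

/-- IND (110 lines). the independence number.
Proof. For a block `k ∈ {1..L}`, a copy `i` and a side `σ` let `X(k,i,σ)` be the set of labels `c` of the
elements of `X` in copy `i`, side `σ` with `bid = k` (`b = k - 1` on side A, `b = k` on side B). Call it big
if its size is `≥ ε w`. Two big sets of one block lie in the same copy (otherwise the hypothesis gives an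
`E2` edge). So a block has at most two big sets, and at most one unless both sides of one copy `i` are
nonempty (case `w = 0` trivial). For a fixed copy `i` there are at most two blocks `k` where both sides are
nonempty: for `k1 + 2 ≤ k2` a side A element of block `k2` (`b = k2 - 1`) sees a side B element of block
`k1` (`b = k1 < k2 - 1`). So the blocks contain at most `L (w + 2 p ε w) + 2 p w` elements of `X`, and outside
the blocks (`b = L` on side A, `b = 0` on side B) there are at most `2 p w` vertices. -/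
def S_IND : Prop :=
  ∀ (p L w : ℕ) (H : SimpleGraph (Fin w)) (ε : ℝ), 1 ≤ L → 0 < ε →
    (∀ X Y : Finset (Fin w), ε * w ≤ (X.card : ℝ) → ε * w ≤ (Y.card : ℝ) →
      ∃ x ∈ X, ∃ y ∈ Y, H.Adj x y) →
    ∀ X : Finset (V p L w), (∀ x ∈ X, ∀ y ∈ X, ¬ (G p L w H).Adj x y) →
      (X.card : ℝ) ≤ L * w * (1 + 2 * p * ε) + 4 * p * w

/-- UP (70 lines; hypotheses `S_LG`, `S_TRI`, `S_MULT`, `S_IND`). upper bound for the minimum.
Proof. `S_LG` with `ε/2` gives `w, D, H`; `L ≥ max (N, 4/ε, 1)`; the graph `G p L w H` moved to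
`Fin n`, `n = p * (2 * ((L+1) * w))`, has independence number at most
`L w (1 + p ε) + 4 p w ≤ (L+1) w + 2 p ε (L+1) w`. -/
def S_UP : Prop :=
  ∀ (p : ℕ) (ε : ℝ) (N : ℕ), 1 ≤ p → 0 < ε → ∃ (n : ℕ) (K : SimpleGraph (Fin n)), N ≤ n ∧
    K.CliqueFree 3 ∧ (∀ v, 1 ≤ (K.neighborSet v).ncard) ∧
    (∀ d : ℕ, {v : Fin n | (K.neighborSet v).ncard = d}.ncard ≤ 2 * p) ∧
    (K.indepNum : ℝ) ≤ (1 / (2 * p) + ε) * n

/-- LOW (30 lines). lower bound: with `m = indepNum` every neighbour set is independent (no triangle), so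
all degrees lie in `{1..m}`, each taken at most `k` times. -/
def S_LOW : Prop :=
  ∀ (n k : ℕ) (K : SimpleGraph (Fin n)), K.CliqueFree 3 → (∀ v, 1 ≤ (K.neighborSet v).ncard) →
    (∀ d : ℕ, {v : Fin n | (K.neighborSet v).ncard = d}.ncard ≤ k) → n ≤ k * K.indepNum

/-- the largest number of vertices of the same degree -/
noncomputable def f {n : ℕ} (K : SimpleGraph (Fin n)) : ℕ :=
  ⨆ d : ℕ, {v : Fin n | (K.neighborSet v).ncard = d}.ncard

/-- the minimum of the independence number, `⊤` if there is no such graph -/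
noncomputable def gk (k n : ℕ) : ℕ∞ :=
  ⨅ (K : SimpleGraph (Fin n)) (_ : K.CliqueFree 3 ∧ (∀ v, 1 ≤ (K.neighborSet v).ncard) ∧ f K ≤ k),
    (K.indepNum : ℕ∞)

/-- FIN (70 lines; hypotheses `S_UP`, `S_LOW`). the final statement. `≥`: `n ≤ k * indepNum` for every
admissible graph. `≤`: for every `ε > 0` there are arbitrarily large `n` with `gk k n ≤ (1/k + ε) n`. -/
def S_FIN : Prop :=
  ∀ k : ℕ, 2 ≤ k → Even k →
    Filter.liminf (fun n : ℕ => ((gk k n : ℕ∞) : ENNReal) / (n : ENNReal)) Filter.atTop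
      = (k : ENNReal)⁻¹

end Run7.h77.RD
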