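import Pool.Agent.Run7.h77.RD.Defs

namespace Run7.h77.RD

open Finset

/-- section of a set of vectors by the first coordinate -/
def sec {s : ℕ} (b : Bool) (X : Finset (Fin (s + 1) → Bool)) : Finset (Fin s → Bool) :=
  univ.filter (fun t => Fin.cons b t ∈ X)

theorem card_sec_aux {s : ℕ} (b : Bool) (X : Finset (Fin (s + 1) → Bool)) :
    (sec b X).card = (X.filter (fun x => x 0 = b)).card := by
  refine Finset.card_nbij' (fun t => (Fin.cons b t : Fin (s + 1) → Bool)) (fun x => Fin.tail x)
    ?_ ?_ ?_ ?_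
  · intro t ht
    simp only [sec, coe_filter, mem_univ, true_and, Set.mem_setOf_eq] at ht
    simp only [coe_filter, Set.mem_setOf_eq, Fin.cons_zero, and_true]
    exact ht
  · intro x hx
    simp only [coe_filter, Set.mem_setOf_eq] at hx
    simp only [sec, coe_filter, mem_univ, true_and, Set.mem_setOf_eq]
    have h : (Fin.cons b (Fin.tail x) : Fin (s + 1) → Bool) = x := by
      rw [← hx.2]; exact Fin.cons_self_tail x
    rw [h]; exact hx.1
  · intro t _
    exact Fin.tail_cons _ _
  · intro x hx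
    simp only [coe_filter, Set.mem_setOf_eq] at hx
    rw [← hx.2]; exact Fin.cons_self_tail x

theorem card_sec {s : ℕ} (X : Finset (Fin (s + 1) → Bool)) :
    X.card = (sec false X).card + (sec true X).card := by
  rw [card_sec_aux, card_sec_aux, ← Finset.card_filter_add_card_filter_not (s := X) (fun x => x 0 = false)]
  congr 2
  ext x
  simp

theorem hamming_cons {s : ℕ} (b b' : Bool) (x z : Fin s → Bool) :
    hammingDist (Fin.cons b x : Fin (s + 1) → Bool) (Fin.cons b' z) =
      (if b = b' then 0 else 1) + hammingDist x z := by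
  unfold hammingDist
  rw [Finset.card_filter, Finset.card_filter, Fin.sum_univ_succ]
  simp only [Fin.cons_zero, Fin.cons_succ]
  congr 1
  by_cases h : b = b' <;> simp [h]

theorem arith (a0 a1 z0 z1 c : ℝ) (ha0 : 0 ≤ a0) (ha1 : 0 ≤ a1) (hz0 : 0 ≤ z0) (hz1 : 0 ≤ z1)
    (hc : 0 < c)
    (h00 : a0 * z0 ≤ c) (h11 : a1 * z1 ≤ c) (h01 : a0 * z1 ≤ 2 * c) (h10 : a1 * z0 ≤ 2 * c) :
    (a0 + a1) * (z0 + z1) ≤ 9 / 2 * c := by
  have hab : (a0 * z1) * (a1 * z0) ≤ c * c := by
    calc (a0 * z1) * (a1 * z0) = (a0 * z0) * (a1 * z1) := by ring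
      _ ≤ c * c := mul_le_mul h00 h11 (by positivity) hc.le
  have hpr : 0 ≤ (2 * c - a0 * z1) * (2 * c - a1 * z0) :=
    mul_nonneg (by linarith) (by linarith)
  have h2 : 2 * c * (a0 * z1 + a1 * z0) ≤ 5 * c * c := by nlinarith
  have h3 : a0 * z1 + a1 * z0 ≤ 5 / 2 * c := by
    by_contra hcon
    push Not at hcon
    have := mul_lt_mul_of_pos_left hcon (by linarith : (0:ℝ) < 2 * c)
    nlinarith
  nlinarith

theorem cube_real : ∀ (s r : ℕ) (X Z : Finset (Fin s → Bool)),
    (∀ x ∈ X, ∀ z ∈ Z, r ≤ hammingDist x z) →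
    (X.card : ℝ) * Z.card ≤ 9 ^ s / (2 ^ r * 2 ^ s) := by
  intro s
  induction s with
  | zero =>
    intro r X Z h
    rcases X.eq_empty_or_nonempty with rfl | ⟨x, hx⟩
    · simp
    rcases Z.eq_empty_or_nonempty with rfl | ⟨z, hz⟩
    · simp
    have h0 := h x hx z hz
    have h1 : hammingDist x z = 0 := by
      rw [hammingDist_eq_zero]; exact Subsingleton.elim _ _
    have hr : r = 0 := by omega
    subst hr
    have hX : X.card ≤ 1 := Finset.card_le_one.mpr (fun a _ b _ => Subsingleton.elim _ _)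
    have hZ : Z.card ≤ 1 := Finset.card_le_one.mpr (fun a _ b _ => Subsingleton.elim _ _)
    have hX' : (X.card : ℝ) ≤ 1 := by exact_mod_cast hX
    have hZ' : (Z.card : ℝ) ≤ 1 := by exact_mod_cast hZ
    have : (X.card : ℝ) * Z.card ≤ 1 * 1 := mul_le_mul hX' hZ' (by positivity) (by norm_num)
    simpa using this
  | succ s ih =>
    intro r X Z h
    have hc : (0:ℝ) < 9 ^ s / (2 ^ r * 2 ^ s) := by positivity
    have hsame : ∀ b : Bool, ((sec b X).card : ℝ) * (sec b Z).card ≤ 9 ^ s / (2 ^ r * 2 ^ s) := by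
      intro b
      apply ih r
      intro x hx z hz
      have h1 := h (Fin.cons b x) (by simpa [sec] using hx) (Fin.cons b z) (by simpa [sec] using hz)
      rw [hamming_cons] at h1
      simpa using h1
    have hdiff : ∀ b b' : Bool, b ≠ b' →
        ((sec b X).card : ℝ) * (sec b' Z).card ≤ 2 * (9 ^ s / (2 ^ r * 2 ^ s)) := by
      intro b b' hbb
      have h0 := ih (r - 1) (sec b X) (sec b' Z) (by
        intro x hx z hz
        have h1 := h (Fin.cons b x) (by simpa [sec] using hx) (Fin.cons b' z) (by simpa [sec] using hz)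
        rw [hamming_cons, if_neg hbb] at h1
        omega)
      refine h0.trans ?_
      rcases Nat.eq_zero_or_pos r with rfl | hr
      · simp only [Nat.zero_sub]
        have : (0:ℝ) < 9 ^ s / (2 ^ 0 * 2 ^ s) := by positivity
        linarith
      · obtain ⟨r', rfl⟩ : ∃ r', r = r' + 1 := ⟨r - 1, by omega⟩
        rw [Nat.add_sub_cancel]
        apply le_of_eq
        rw [pow_succ (2:ℝ) r']
        field_simp
    have := arith (sec false X).card (sec true X).card (sec false Z).card (sec true Z).card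
      (9 ^ s / (2 ^ r * 2 ^ s)) (by positivity) (by positivity) (by positivity) (by positivity) hc
      (hsame false) (hsame true) (hdiff false true (by decide)) (hdiff true false (by decide))
    rw [card_sec X, card_sec Z]
    push_cast
    refine this.trans (le_of_eq ?_)
    rw [pow_succ, pow_succ (2:ℝ) s]
    field_simp

theorem t_CUBE : S_CUBE := by
  intro s r X Z h
  have h1 := cube_real s r X Z h
  rw [le_div_iff₀ (by positivity)] at h1
  have h2 : ((X.card * Z.card * 2 ^ r * 2 ^ s : ℕ) : ℝ) ≤ ((9 ^ s : ℕ) : ℝ) := by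
    push_cast
    calc _ = (X.card : ℝ) * Z.card * (2 ^ r * 2 ^ s) := by ring
      _ ≤ _ := h1
  exact_mod_cast h2

end Run7.h77.RD
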