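import Pool.Agent.Run7.h77.RD.Defs

namespace Run7.h77.RD

open Filter

theorem le_f {n : ℕ} (K : SimpleGraph (Fin n)) (d : ℕ) :
    {v : Fin n | (K.neighborSet v).ncard = d}.ncard ≤ f K := by
  unfold f
  refine le_ciSup (f := fun d : ℕ => {v : Fin n | (K.neighborSet v).ncard = d}.ncard) ?_ d
  refine ⟨n, ?_⟩
  rintro _ ⟨e, rfl⟩
  calc {v : Fin n | (K.neighborSet v).ncard = e}.ncard
      ≤ (Set.univ : Set (Fin n)).ncard := Set.ncard_le_ncard (Set.subset_univ _)
    _ = n := by rw [Set.ncard_univ, Nat.card_eq_fintype_card, Fintype.card_fin]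

theorem f_le {n : ℕ} (K : SimpleGraph (Fin n)) (k : ℕ)
    (h : ∀ d : ℕ, {v : Fin n | (K.neighborSet v).ncard = d}.ncard ≤ k) : f K ≤ k := by
  unfold f
  exact ciSup_le h

theorem gk_le {k n : ℕ} (K : SimpleGraph (Fin n)) (h1 : K.CliqueFree 3)
    (h2 : ∀ v, 1 ≤ (K.neighborSet v).ncard) (h3 : f K ≤ k) :
    gk k n ≤ (K.indepNum : ℕ∞) := by
  unfold gk
  exact iInf₂_le K ⟨h1, h2, h3⟩

theorem t_FIN : S_UP → S_LOW → S_FIN := by
  intro hup hlow k hk hev
  obtain ⟨p, hp⟩ := hev
  have hkp : k = 2 * p := by omega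
  have hp1 : 1 ≤ p := by omega
  have hk0 : (k : ENNReal) ≠ 0 := by
    have : k ≠ 0 := by omega
    exact_mod_cast this
  have hkt : (k : ENNReal) ≠ ⊤ := ENNReal.natCast_ne_top k
  apply le_antisymm
  · -- upper bound
    refine ENNReal.le_of_forall_pos_le_add ?_
    intro ε hε _
    refine Filter.liminf_le_of_frequently_le ?_ (by isBoundedDefault)
    rw [Filter.frequently_atTop]
    intro N
    obtain ⟨n, K, hn, hcf, hdeg, hmul, hind⟩ := hup p (ε : ℝ) (N + 1) hp1 (by exact_mod_cast hε)
    refine ⟨n, by omega, ?_⟩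
    have hn0 : n ≠ 0 := by omega
    have hf : f K ≤ k := by rw [hkp]; exact f_le K (2 * p) hmul
    have h1 : gk k n ≤ (K.indepNum : ℕ∞) := gk_le K hcf hdeg hf
    have h2 : ((gk k n : ℕ∞) : ENNReal) ≤ (K.indepNum : ENNReal) := by
      have := ENat.toENNReal_le.mpr h1
      simpa using this
    have h3 : ENNReal.ofReal (K.indepNum : ℝ) ≤ ENNReal.ofReal ((1 / (2 * p) + ε) * n) :=
      ENNReal.ofReal_le_ofReal hind
    have h4 : ENNReal.ofReal (K.indepNum : ℝ) = (K.indepNum : ENNReal) := ENNReal.ofReal_natCast _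
    have h5 : ENNReal.ofReal ((1 / (2 * (p : ℝ)) + ε) * n) = ((k : ENNReal)⁻¹ + ε) * n := by
      rw [ENNReal.ofReal_mul (by positivity), ENNReal.ofReal_natCast,
        ENNReal.ofReal_add (by positivity) (by positivity)]
      congr 2
      · rw [one_div, ENNReal.ofReal_inv_of_pos (by positivity)]
        congr 1
        rw [hkp]
        rw [ENNReal.ofReal_mul (by norm_num)]
        simp
      · exact ENNReal.ofReal_coe_nnreal
    have h6 : ((gk k n : ℕ∞) : ENNReal) ≤ ((k : ENNReal)⁻¹ + ε) * n := by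
      calc ((gk k n : ℕ∞) : ENNReal) ≤ (K.indepNum : ENNReal) := h2
        _ = ENNReal.ofReal (K.indepNum : ℝ) := h4.symm
        _ ≤ _ := h3
        _ = _ := h5
    exact ENNReal.div_le_of_le_mul h6
  · -- lower bound
    refine Filter.le_liminf_of_le (by isBoundedDefault) ?_
    filter_upwards [Filter.eventually_ge_atTop 1] with n hn
    have hn0 : (n : ENNReal) ≠ 0 := by
      have : n ≠ 0 := by omega
      exact_mod_cast this
    have hnt : (n : ENNReal) ≠ ⊤ := ENNReal.natCast_ne_top n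
    rw [ENNReal.le_div_iff_mul_le (Or.inl hn0) (Or.inl hnt)]
    by_cases htop : gk k n = ⊤
    · rw [htop]; simp
    · have hex : ∃ (K : SimpleGraph (Fin n)), K.CliqueFree 3 ∧
          (∀ v, 1 ≤ (K.neighborSet v).ncard) ∧ f K ≤ k ∧ (K.indepNum : ℕ∞) ≤ gk k n := by
        by_contra hno
        push Not at hno
        apply htop
        obtain ⟨m, hm⟩ := ENat.ne_top_iff_exists.mp htop
        exfalso
        have hlt : gk k n < ((m + 1 : ℕ) : ℕ∞) := by
          rw [← hm]; exact_mod_cast Nat.lt_succ_self m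
        have hle : ((m + 1 : ℕ) : ℕ∞) ≤ gk k n := by
          unfold gk
          refine le_iInf₂ ?_
          intro K hK
          have := hno K hK.1 hK.2.1 hK.2.2
          rw [← hm] at this
          have h7 : m < K.indepNum := by exact_mod_cast this
          exact_mod_cast h7
        exact absurd hlt (not_lt.mpr hle)
      obtain ⟨K, h1, h2, h3, h4⟩ := hex
      have h5 : n ≤ k * K.indepNum := hlow n k K h1 h2 (fun d => (le_f K d).trans h3)
      have h6 : (n : ENNReal) ≤ (k : ENNReal) * (K.indepNum : ENNReal) := by exact_mod_cast h5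
      have h7 : (K.indepNum : ENNReal) ≤ ((gk k n : ℕ∞) : ENNReal) := by
        have := ENat.toENNReal_le.mpr h4
        simpa using this
      calc (k : ENNReal)⁻¹ * n ≤ (k : ENNReal)⁻¹ * ((k : ENNReal) * (K.indepNum : ENNReal)) := by
            gcongr
        _ = (K.indepNum : ENNReal) := by
            rw [← mul_assoc, ENNReal.inv_mul_cancel hk0 hkt, one_mul]
        _ ≤ _ := h7

end Run7.h77.RD
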