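import Pool.Agent.Run7.h77.RD.Defs

namespace Run7.h77.RD

open Finset

/-- vectors -/
abbrev C (s : ℕ) : Type := Fin s → Bool

/-- near antipodal graph -/
def NA (s : ℕ) : SimpleGraph (C s) where
  Adj x y := 2 * s < 3 * hammingDist x y
  symm := ⟨by
    intro x y h
    rw [hammingDist_comm]; exact h⟩
  loopless := ⟨by
    intro x h
    rw [hammingDist_self] at h
    omega⟩

theorem three_dist {s : ℕ} (x y z : C s) :
    hammingDist x y + hammingDist y z + hammingDist x z ≤ 2 * s := by
  unfold hammingDist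
  rw [Finset.card_filter, Finset.card_filter, Finset.card_filter, ← Finset.sum_add_distrib,
    ← Finset.sum_add_distrib]
  calc _ ≤ ∑ _i : Fin s, 2 := by
        apply Finset.sum_le_sum
        intro i _
        rcases hx : x i with _ | _ <;> rcases hy : y i with _ | _ <;> rcases hz : z i with _ | _ <;> simp
    _ = 2 * s := by simp [mul_comm]

theorem NA_free (s : ℕ) : (NA s).CliqueFree 3 := by
  intro t ht
  rw [SimpleGraph.is3Clique_iff] at ht
  obtain ⟨x, y, z, hxy, hxz, hyz, -⟩ := ht
  have h := three_dist x y z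
  have h1 : 2 * s < 3 * hammingDist x y := hxy
  have h2 : 2 * s < 3 * hammingDist x z := hxz
  have h3 : 2 * s < 3 * hammingDist y z := hyz
  omega

theorem dist_xor {s : ℕ} (a x y : C s) :
    hammingDist (fun i => xor (a i) (x i)) (fun i => xor (a i) (y i)) = hammingDist x y := by
  unfold hammingDist
  congr 1
  ext i
  simp

/-- translation -/
def tr {s : ℕ} (a : C s) : C s ≃ C s where
  toFun x := fun i => xor (a i) (x i)
  invFun x := fun i => xor (a i) (x i)
  left_inv x := by funext i; simp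
  right_inv x := by funext i; simp

theorem NA_reg (s : ℕ) (x y : C s) : ((NA s).neighborSet x).ncard = ((NA s).neighborSet y).ncard := by
  let a : C s := fun i => xor (x i) (y i)
  have himg : (tr a) '' ((NA s).neighborSet x) = (NA s).neighborSet y := by
    have hy : tr a x = y := by
      funext i
      show xor (xor (x i) (y i)) (x i) = y i
      cases x i <;> cases y i <;> rfl
    ext z
    constructor
    · rintro ⟨u, hu, rfl⟩
      have hu' : 2 * s < 3 * hammingDist x u := hu
      show 2 * s < 3 * hammingDist y (tr a u)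
      rw [← hy]
      show 2 * s < 3 * hammingDist (fun i => xor (a i) (x i)) (fun i => xor (a i) (u i))
      rw [dist_xor]; exact hu'
    · intro hz
      have hz' : 2 * s < 3 * hammingDist y z := hz
      refine ⟨(tr a).symm z, ?_, (tr a).apply_symm_apply z⟩
      show 2 * s < 3 * hammingDist x ((tr a).symm z)
      have h : hammingDist x ((tr a).symm z) = hammingDist y z := by
        rw [← hy]
        conv_rhs => rw [← (tr a).apply_symm_apply z]
        exact (dist_xor a x ((tr a).symm z)).symm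
      rw [h]; exact hz'
  rw [← himg, Set.ncard_image_of_injective _ (tr a).injective]

/-- complement -/
def cp {s : ℕ} (x : C s) : C s := fun i => !(x i)

theorem cp_cp {s : ℕ} (x : C s) : cp (cp x) = x := by
  funext i; simp [cp]

theorem dist_cp {s : ℕ} (x y : C s) : hammingDist x y + hammingDist x (cp y) = s := by
  unfold hammingDist
  rw [Finset.card_filter, Finset.card_filter, ← Finset.sum_add_distrib]
  calc _ = ∑ _i : Fin s, 1 := by
        apply Finset.sum_congr rfl
        intro i _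
        have key : ∀ a b : Bool, ((if a ≠ b then 1 else 0) + if a ≠ !b then 1 else 0) = 1 := by
          decide
        exact key _ _
    _ = s := by simp

theorem NA_half (s : ℕ) (x : C s) : 2 * ((NA s).neighborSet x).ncard ≤ 2 ^ s := by
  have hinj : Function.Injective (cp (s := s)) := by
    intro a b h
    rw [← cp_cp a, h, cp_cp]
  have h1 : (cp '' ((NA s).neighborSet x)).ncard = ((NA s).neighborSet x).ncard :=
    Set.ncard_image_of_injective _ hinj
  have hdis : Disjoint ((NA s).neighborSet x) (cp '' ((NA s).neighborSet x)) := by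
    rw [Set.disjoint_left]
    rintro z hz ⟨u, hu, rfl⟩
    have hz' : 2 * s < 3 * hammingDist x (cp u) := hz
    have hu' : 2 * s < 3 * hammingDist x u := hu
    have := dist_cp x u
    omega
  have h2 : ((NA s).neighborSet x ∪ cp '' ((NA s).neighborSet x)).ncard ≤ (Set.univ : Set (C s)).ncard :=
    Set.ncard_le_ncard (Set.subset_univ _)
  rw [Set.ncard_union_eq hdis (Set.toFinite _) (Set.toFinite _), h1, Set.ncard_univ,
    Nat.card_eq_fintype_card] at h2
  simp only [Fintype.card_pi, Fintype.card_bool, prod_const, card_univ, Fintype.card_fin] at h2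
  omega

theorem NA_two (hc : S_CUBE) (r : ℕ) (ε : ℝ) (hε : 0 < ε) (hr : (729 / 1024 : ℝ) ^ r < ε ^ 2)
    (X Y : Finset (C (3 * r))) (hX : ε * 2 ^ (3 * r) ≤ (X.card : ℝ)) (hY : ε * 2 ^ (3 * r) ≤ (Y.card : ℝ)) :
    ∃ x ∈ X, ∃ y ∈ Y, (NA (3 * r)).Adj x y := by
  by_contra hno
  push Not at hno
  have hinj : Function.Injective (cp (s := 3 * r)) := by
    intro a b h
    rw [← cp_cp a, h, cp_cp]
  have hfar : ∀ x ∈ X, ∀ z ∈ Y.image cp, r ≤ hammingDist x z := by
    intro x hx z hz
    obtain ⟨y, hy, rfl⟩ := mem_image.mp hz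
    have h1 : ¬ (2 * (3 * r) < 3 * hammingDist x y) := hno x hx y hy
    have h2 := dist_cp x y
    omega
  have h1 := hc (3 * r) r X (Y.image cp) hfar
  rw [card_image_of_injective _ hinj] at h1
  have h2 : ((X.card : ℝ) * Y.card) * 2 ^ r * 2 ^ (3 * r) ≤ 9 ^ (3 * r) := by exact_mod_cast h1
  have hlow : (ε * 2 ^ (3 * r)) * (ε * 2 ^ (3 * r)) ≤ (X.card : ℝ) * Y.card :=
    mul_le_mul hX hY (by positivity) (by positivity)
  have h3 : (ε * 2 ^ (3 * r)) * (ε * 2 ^ (3 * r)) * 2 ^ r * 2 ^ (3 * r) ≤ 9 ^ (3 * r) := by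
    refine le_trans ?_ h2
    gcongr
  have e1 : (ε * 2 ^ (3 * r)) * (ε * 2 ^ (3 * r)) * 2 ^ r * 2 ^ (3 * r) = ε ^ 2 * (1024:ℝ) ^ r := by
    have : (1024:ℝ) = 2 ^ 3 * 2 ^ 3 * 2 * 2 ^ 3 := by norm_num
    rw [this, mul_pow, mul_pow, mul_pow, pow_mul]
    ring
  have e2 : (9:ℝ) ^ (3 * r) = 729 ^ r := by
    rw [pow_mul]; norm_num
  rw [e1, e2] at h3
  have h4 : (729 / 1024 : ℝ) ^ r * 1024 ^ r = 729 ^ r := by
    rw [← mul_pow]; norm_num
  have h5 : (729 / 1024 : ℝ) ^ r * 1024 ^ r < ε ^ 2 * 1024 ^ r := by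
    gcongr
  linarith

theorem t_LG : S_CUBE → S_LG := by
  intro hc ε hε
  obtain ⟨r, hr⟩ := exists_pow_lt_of_lt_one (show (0:ℝ) < ε ^ 2 by positivity)
    (show (729 / 1024 : ℝ) < 1 by norm_num)
  have hcard : Fintype.card (C (3 * r)) = 2 ^ (3 * r) := by
    simp [C]
  let e : C (3 * r) ≃ Fin (2 ^ (3 * r)) := Fintype.equivFinOfCardEq hcard
  let H : SimpleGraph (Fin (2 ^ (3 * r))) := (NA (3 * r)).comap e.symm
  have hns : ∀ c, (H.neighborSet c).ncard = ((NA (3 * r)).neighborSet (e.symm c)).ncard := by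
    intro c
    have : e.symm '' (H.neighborSet c) = (NA (3 * r)).neighborSet (e.symm c) := by
      ext z
      constructor
      · rintro ⟨u, hu, rfl⟩
        exact hu
      · intro hz
        refine ⟨e z, ?_, e.symm_apply_apply z⟩
        show (NA (3 * r)).Adj (e.symm c) (e.symm (e z))
        rw [e.symm_apply_apply]; exact hz
    rw [← this, Set.ncard_image_of_injective _ e.symm.injective]
  refine ⟨2 ^ (3 * r), ((NA (3 * r)).neighborSet (fun _ => false)).ncard, H, by positivity, ?_, ?_, ?_, ?_⟩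
  · intro t ht
    rw [SimpleGraph.is3Clique_iff] at ht
    obtain ⟨x, y, z, hxy, hxz, hyz, -⟩ := ht
    apply NA_free (3 * r) {e.symm x, e.symm y, e.symm z}
    rw [SimpleGraph.is3Clique_triple_iff]
    exact ⟨hxy, hxz, hyz⟩
  · intro c
    rw [hns c]; exact NA_reg _ _ _
  · exact NA_half _ _
  · intro X Y hX hY
    have hX' : ε * 2 ^ (3 * r) ≤ ((X.map e.symm.toEmbedding).card : ℝ) := by
      rw [card_map]; push_cast at hX; exact hX
    have hY' : ε * 2 ^ (3 * r) ≤ ((Y.map e.symm.toEmbedding).card : ℝ) := by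
      rw [card_map]; push_cast at hY; exact hY
    obtain ⟨x, hx, y, hy, hxy⟩ := NA_two hc r ε hε hr _ _ hX' hY'
    obtain ⟨x', hx', rfl⟩ := mem_map.mp hx
    obtain ⟨y', hy', rfl⟩ := mem_map.mp hy
    exact ⟨x', hx', y', hy', hxy⟩

end Run7.h77.RD
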