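import Pool.Agent.Run7.h77.RD.Defs

namespace Run7.h77.RD

theorem t_LOW : S_LOW := by
  classical
  intro n k K hcf hdeg hmul
  -- degrees are at most indepNum
  have hle : ∀ v, (K.neighborSet v).ncard ≤ K.indepNum := by
    intro v
    have hind : K.IsIndepSet ((K.neighborFinset v : Finset (Fin n)) : Set (Fin n)) := by
      intro a ha b hb hab hadj
      have ha' : K.Adj v a := by simpa using ha
      have hb' : K.Adj v b := by simpa using hb
      apply hcf {v, a, b}
      rw [SimpleGraph.is3Clique_triple_iff]
      exact ⟨ha', hb', hadj⟩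
    have h1 := hind.card_le_indepNum
    have h2 : (K.neighborSet v).ncard = (K.neighborFinset v).card := by
      rw [← Set.ncard_coe_finset]
      congr 1
      ext a
      simp
    rw [h2]; exact h1
  set m := K.indepNum with hm
  -- count
  have hcount : (Finset.univ : Finset (Fin n)).card ≤
      ∑ d ∈ Finset.Icc 1 m, (Finset.univ.filter (fun v : Fin n => (K.neighborSet v).ncard = d)).card := by
    have hmaps : ∀ v ∈ (Finset.univ : Finset (Fin n)), (K.neighborSet v).ncard ∈ Finset.Icc 1 m := by
      intro v _
      exact Finset.mem_Icc.mpr ⟨hdeg v, hle v⟩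
    exact (Finset.card_eq_sum_card_fiberwise hmaps).le
  have hbd : ∀ d ∈ Finset.Icc 1 m,
      (Finset.univ.filter (fun v : Fin n => (K.neighborSet v).ncard = d)).card ≤ k := by
    intro d _
    have := hmul d
    have h2 : {v : Fin n | (K.neighborSet v).ncard = d}.ncard =
        (Finset.univ.filter (fun v : Fin n => (K.neighborSet v).ncard = d)).card := by
      rw [← Set.ncard_coe_finset]; congr 1; ext v; simp
    rw [h2] at this; exact this
  have hsum := Finset.sum_le_sum hbd
  rw [Finset.card_fin] at hcount
  rw [Finset.sum_const, Nat.card_Icc, smul_eq_mul] at hsum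
  calc n ≤ _ := hcount
    _ ≤ (m + 1 - 1) * k := hsum
    _ = k * m := by rw [Nat.add_sub_cancel, mul_comm]

end Run7.h77.RD
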