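import Pool.Agent.Run7.h77.RD.Defs

namespace Run7.h77.RD

theorem pos_inj {w : ℕ} {b b' c c' : ℕ} (hc : c < w) (hc' : c' < w) (h : b * w + c = b' * w + c') :
    b = b' ∧ c = c' := by
  have hw : 0 < w := by omega
  have h1 : (b * w + c) / w = b := by
    rw [mul_comm, Nat.mul_add_div hw, Nat.div_eq_of_lt hc, add_zero]
  have h2 : (b' * w + c') / w = b' := by
    rw [mul_comm, Nat.mul_add_div hw, Nat.div_eq_of_lt hc', add_zero]
  have hb : b = b' := by rw [← h1, ← h2, h]
  subst hb
  exact ⟨rfl, by omega⟩

theorem t_MULT : S_DEGA → S_DEGB → S_MULT := by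
  intro hA hB p L w D H hL hreg hD
  have hmul : 2 * (p - 1) * D ≤ (p - 1) * w := by
    calc 2 * (p - 1) * D = (p - 1) * (2 * D) := by ring
      _ ≤ (p - 1) * w := Nat.mul_le_mul_left _ hD
  have hpos : ∀ (b : Fin (L + 1)) (c : Fin w), (b : ℕ) * w + c < (L + 1) * w := by
    intro b c
    have hb : (b : ℕ) ≤ L := by omega
    calc (b : ℕ) * w + c < (b : ℕ) * w + w := by omega
      _ = ((b : ℕ) + 1) * w := by ring
      _ ≤ (L + 1) * w := Nat.mul_le_mul_right _ (by omega)
  constructor
  · rintro ⟨i, s, b, c⟩
    cases s with
    | false => rw [hA p L w D H hL hreg i b c]; omega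
    | true =>
      rw [hB p L w D H hL hreg i b c]
      have := hpos b c
      omega
  · intro d
    have hinj : Set.InjOn (fun v : V p L w => (v.1, v.2.1))
        {v : V p L w | ((G p L w H).neighborSet v).ncard = d} := by
      rintro ⟨i, s, b, c⟩ hv ⟨i', s', b', c'⟩ hv' heq
      simp only [Prod.mk.injEq] at heq
      obtain ⟨rfl, rfl⟩ := heq
      simp only [Set.mem_setOf_eq] at hv hv'
      cases s with
      | false =>
        rw [hA p L w D H hL hreg i b c] at hv
        rw [hA p L w D H hL hreg i b' c'] at hv'
        have h1 := hpos b c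
        have h2 := hpos b' c'
        have hb : (b : ℕ) ≤ L := by omega
        have hb' : (b' : ℕ) ≤ L := by omega
        have hc := c.2
        have hc' := c'.2
        have key : (b : ℕ) * w + c = (b' : ℕ) * w + c' := by
          by_cases e : (b : ℕ) < L <;> by_cases e' : (b' : ℕ) < L
          · rw [if_pos e] at hv; rw [if_pos e'] at hv'; omega
          · rw [if_pos e] at hv; rw [if_neg e'] at hv'
            exfalso
            have h3 : ((b : ℕ) + 1) * w ≤ (b' : ℕ) * w := Nat.mul_le_mul_right _ (by omega)
            have h4 : ((b : ℕ) + 1) * w = (b : ℕ) * w + w := by ring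
            omega
          · rw [if_neg e] at hv; rw [if_pos e'] at hv'
            exfalso
            have h3 : ((b' : ℕ) + 1) * w ≤ (b : ℕ) * w := Nat.mul_le_mul_right _ (by omega)
            have h4 : ((b' : ℕ) + 1) * w = (b' : ℕ) * w + w := by ring
            omega
          · rw [if_neg e] at hv; rw [if_neg e'] at hv'; omega
        obtain ⟨h5, h6⟩ := pos_inj hc hc' key
        have h5' : b = b' := Fin.ext h5
        have h6' : c = c' := Fin.ext h6
        rw [h5', h6']
      | true =>
        rw [hB p L w D H hL hreg i b c] at hv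
        rw [hB p L w D H hL hreg i b' c'] at hv'
        have h1 := hpos b c
        have h2 := hpos b' c'
        have hc := c.2
        have hc' := c'.2
        have key : (b : ℕ) * w + c = (b' : ℕ) * w + c' := by
          by_cases e : 0 < (b : ℕ) <;> by_cases e' : 0 < (b' : ℕ)
          · rw [if_pos e] at hv; rw [if_pos e'] at hv'; omega
          · rw [if_pos e] at hv; rw [if_neg e'] at hv'
            exfalso
            have h3 : ((b' : ℕ) + 1) * w ≤ (b : ℕ) * w := Nat.mul_le_mul_right _ (by omega)
            have h4 : ((b' : ℕ) + 1) * w = (b' : ℕ) * w + w := by ring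
            omega
          · rw [if_neg e] at hv; rw [if_pos e'] at hv'
            exfalso
            have h3 : ((b : ℕ) + 1) * w ≤ (b' : ℕ) * w := Nat.mul_le_mul_right _ (by omega)
            have h4 : ((b : ℕ) + 1) * w = (b : ℕ) * w + w := by ring
            omega
          · rw [if_neg e] at hv; rw [if_neg e'] at hv'; omega
        obtain ⟨h5, h6⟩ := pos_inj hc hc' key
        have h5' : b = b' := Fin.ext h5
        have h6' : c = c' := Fin.ext h6
        rw [h5', h6']
    calc {v : V p L w | ((G p L w H).neighborSet v).ncard = d}.ncard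
        = ((fun v : V p L w => (v.1, v.2.1)) ''
            {v : V p L w | ((G p L w H).neighborSet v).ncard = d}).ncard :=
          (Set.ncard_image_of_injOn hinj).symm
      _ ≤ (Set.univ : Set (Fin p × Bool)).ncard := Set.ncard_le_ncard (Set.subset_univ _)
      _ = 2 * p := by
          rw [Set.ncard_univ, Nat.card_eq_fintype_card]
          simp [mul_comm]

end Run7.h77.RD
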