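import Pool.Agent.Run7.h77.RD.Defs

namespace Run7.h77.RD

variable {p L w : ℕ}

/-- an `E1` edge whose ends are in blocks is a dense edge inside a copy -/
theorem E1_blocked_left {u v : V p L w} (h : E1 u v) (hu : bid u.2.1 u.2.2.1 ≤ L) :
    u.1 = v.1 ∧ Dn u.2.2 v.2.2 := by
  obtain ⟨hs, _, h1 | h1⟩ := h
  · exact h1
  · exfalso
    rw [hs, h1.2.1] at hu
    simp [bid] at hu

theorem E1_blocked_right {u v : V p L w} (h : E1 u v) (hv : 1 ≤ bid v.2.1 v.2.2.1) :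
    u.1 = v.1 ∧ Dn u.2.2 v.2.2 := by
  obtain ⟨_, ht, h1 | h1⟩ := h
  · exact h1
  · exfalso
    rw [ht, h1.2.2] at hv
    simp [bid] at hv

theorem E2_symm {H : SimpleGraph (Fin w)} {u v : V p L w} (h : E2 H u v) : E2 H v u := by
  refine ⟨fun e => h.1 e.symm, h.2.1.symm, ?_, ?_, h.2.2.2.2.symm⟩
  · rw [← h.2.1]; exact h.2.2.1
  · rw [← h.2.1]; exact h.2.2.2.1

/-- one dense edge, two sparse edges -/
theorem no1 {H : SimpleGraph (Fin w)} {u v t : V p L w} (h : E1 u v) (h1 : E2 H u t) (h2 : E2 H v t) :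
    False := by
  obtain ⟨he, hd⟩ := E1_blocked_left h h1.2.2.2.1
  have hb : bid u.2.1 u.2.2.1 = bid v.2.1 v.2.2.1 := h1.2.1.trans h2.2.1.symm
  rw [h.1, h.2.1] at hb
  simp only [bid, if_true] at hb
  have hb' : (u.2.2.1 : ℕ) + 1 = (v.2.2.1 : ℕ) := by simpa using hb
  rcases hd with h3 | h3
  · have : (v.2.2.1 : ℕ) < (u.2.2.1 : ℕ) := h3
    omega
  · have : (v.2.2.1 : ℕ) = (u.2.2.1 : ℕ) := congrArg Fin.val h3.1
    omega

/-- two dense edges at a common `B` vertex, one sparse edge -/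
theorem no2 {H : SimpleGraph (Fin w)} {u v t : V p L w} (h : E1 u v) (h' : E1 t v) (h2 : E2 H u t) :
    False := by
  have h3 := (E1_blocked_left h h2.2.2.2.1).1
  have h4 := (E1_blocked_left h' (E2_symm h2).2.2.2.1).1
  exact h2.1 (h3.trans h4.symm)

/-- two dense edges at a common `A` vertex, one sparse edge -/
theorem no3 {H : SimpleGraph (Fin w)} {u v t : V p L w} (h : E1 v u) (h' : E1 v t) (h2 : E2 H u t) :
    False := by
  have h3 := (E1_blocked_right h h2.2.2.1).1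
  have h4 := (E1_blocked_right h' (E2_symm h2).2.2.1).1
  exact h2.1 (h3.symm.trans h4)

theorem t_TRI : S_TRI := by
  intro p L w H hL hH t ht
  rw [SimpleGraph.is3Clique_iff] at ht
  obtain ⟨x, y, z, hxy, hxz, hyz, -⟩ := ht
  have side : ∀ a b : V p L w, E1 a b → a.2.1 = false ∧ b.2.1 = true := fun a b h => ⟨h.1, h.2.1⟩
  have clash : ∀ a : V p L w, a.2.1 = false → a.2.1 = true → False := by
    intro a h1 h2
    rw [h1] at h2; cases h2
  rcases hxy with h1 | h1 | h1 <;> rcases hxz with h2 | h2 | h2 <;> rcases hyz with h3 | h3 | h3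
  -- x-y : E1 x y
  · exact clash y h3.1 h1.2.1
  · exact clash z h3.1 h2.2.1
  · exact no3 h1 h2 h3
  · exact clash y h3.1 h1.2.1
  · exact clash x h1.1 h2.2.1
  · exact clash x h1.1 h2.2.1
  · exact clash y h3.1 h1.2.1
  · exact no2 h1 h3 h2
  · exact no1 h1 h2 h3
  -- E1 y x
  · exact clash x h2.1 h1.2.1
  · exact clash x h2.1 h1.2.1
  · exact clash x h2.1 h1.2.1
  · exact clash z h2.1 h3.2.1
  · exact clash y h1.1 h3.2.1
  · exact no2 h1 h2 h3
  · exact no3 h1 h3 h2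
  · exact clash y h1.1 h3.2.1
  · exact no1 h1 h3 h2
  -- E2 x y
  · exact no2 h2 h3 h1
  · exact clash z h3.1 h2.2.1
  · exact no1 h2 h1 (E2_symm h3)
  · exact clash z h2.1 h3.2.1
  · exact no3 h2 h3 h1
  · exact no1 h2 (E2_symm h3) h1
  · exact no1 h3 (E2_symm h1) (E2_symm h2)
  · exact no1 h3 (E2_symm h2) (E2_symm h1)
  · apply hH {x.2.2.2, y.2.2.2, z.2.2.2}
    rw [SimpleGraph.is3Clique_triple_iff]
    exact ⟨h1.2.2.2.2, h2.2.2.2.2, h3.2.2.2.2⟩

end Run7.h77.RD
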