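import Pool.Agent.Run7.h77.RD.Defs

namespace Run7.h77.RD

theorem t_UP : S_LG → S_TRI → S_MULT → S_IND → S_UP := by
  intro hLG hTRI hMULT hIND p ε N hp hε
  obtain ⟨w, D, H, hw, hcf, hreg, hD, htwo⟩ := hLG (ε / 2) (by positivity)
  set L : ℕ := N + ⌈4 / ε⌉₊ + 1 with hL
  have hL1 : 1 ≤ L := by omega
  have hcard : Fintype.card (V p L w) = p * (2 * ((L + 1) * w)) := by
    simp [V]
  set n : ℕ := p * (2 * ((L + 1) * w)) with hn
  let e : V p L w ≃ Fin n := Fintype.equivFinOfCardEq hcard
  let K : SimpleGraph (Fin n) := (G p L w H).comap e.symm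
  have himg : ∀ c, e.symm '' (K.neighborSet c) = (G p L w H).neighborSet (e.symm c) := by
    intro c
    ext z
    constructor
    · rintro ⟨u, hu, rfl⟩
      exact hu
    · intro hz
      refine ⟨e z, ?_, e.symm_apply_apply z⟩
      show (G p L w H).Adj (e.symm c) (e.symm (e z))
      rw [e.symm_apply_apply]; exact hz
  have hns : ∀ c, (K.neighborSet c).ncard = ((G p L w H).neighborSet (e.symm c)).ncard := by
    intro c
    rw [← himg c, Set.ncard_image_of_injective _ e.symm.injective]
  obtain ⟨hm1, hm2⟩ := hMULT p L w D H hL1 hreg hD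
  refine ⟨n, K, ?_, ?_, ?_, ?_, ?_⟩
  · have h1 : 1 ≤ p * (2 * w) := by
      have : 0 < p * (2 * w) := by positivity
      omega
    calc N ≤ L + 1 := by omega
      _ = (L + 1) * 1 := by ring
      _ ≤ (L + 1) * (p * (2 * w)) := Nat.mul_le_mul_left _ h1
      _ = n := by rw [hn]; ring
  · intro t ht
    rw [SimpleGraph.is3Clique_iff] at ht
    obtain ⟨x, y, z, hxy, hxz, hyz, -⟩ := ht
    apply hTRI p L w H hL1 hcf {e.symm x, e.symm y, e.symm z}
    rw [SimpleGraph.is3Clique_triple_iff]
    exact ⟨hxy, hxz, hyz⟩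
  · intro v
    rw [hns v]; exact hm1 _
  · intro d
    have h1 : e.symm '' {v : Fin n | (K.neighborSet v).ncard = d} ⊆
        {v : V p L w | ((G p L w H).neighborSet v).ncard = d} := by
      rintro _ ⟨u, hu, rfl⟩
      have hu' : (K.neighborSet u).ncard = d := hu
      show ((G p L w H).neighborSet (e.symm u)).ncard = d
      rw [← hns u]; exact hu'
    calc {v : Fin n | (K.neighborSet v).ncard = d}.ncard
        = (e.symm '' {v : Fin n | (K.neighborSet v).ncard = d}).ncard :=
          (Set.ncard_image_of_injective _ e.symm.injective).symm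
      _ ≤ _ := Set.ncard_le_ncard h1
      _ ≤ 2 * p := hm2 d
  · obtain ⟨s, hs⟩ := K.exists_isNIndepSet_indepNum
    have hX := hIND p L w H (ε / 2) hL1 (by positivity) htwo (s.map e.symm.toEmbedding) (by
      intro x hx y hy hadj
      obtain ⟨x', hx', rfl⟩ := Finset.mem_map.mp hx
      obtain ⟨y', hy', rfl⟩ := Finset.mem_map.mp hy
      have hne : x' ≠ y' := by
        rintro rfl
        exact (G p L w H).loopless.irrefl _ hadj
      exact hs.isIndepSet hx' hy' hne hadj)
    rw [Finset.card_map, hs.card_eq] at hX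
    refine hX.trans ?_
    have hLε : 4 ≤ ε * L := by
      have h1 : 4 / ε ≤ (⌈4 / ε⌉₊ : ℝ) := Nat.le_ceil _
      have h2 : (⌈4 / ε⌉₊ : ℝ) ≤ (L : ℝ) := by
        have : ⌈4 / ε⌉₊ ≤ L := by omega
        exact_mod_cast this
      have h3 : 4 / ε ≤ (L : ℝ) := h1.trans h2
      rw [div_le_iff₀ hε] at h3
      linarith
    have hp' : (0:ℝ) < p := by exact_mod_cast hp
    have hw' : (0:ℝ) < w := by exact_mod_cast hw
    have hn' : (n : ℝ) = p * (2 * ((L + 1) * w)) := by rw [hn]; push_cast; ring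
    have e1 : (1 / (2 * (p:ℝ)) + ε) * n = (L + 1) * w + 2 * p * ε * (L + 1) * w := by
      rw [hn']; field_simp
    rw [e1]
    have hpw : (0:ℝ) < p * w := by positivity
    have h5 : 4 * (p * w) ≤ ε * L * (p * w) := by
      exact mul_le_mul_of_nonneg_right hLε hpw.le
    have h6 : (0:ℝ) ≤ ε * (p * w) := by positivity
    nlinarith

end Run7.h77.RD
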